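import Mathlib
import Pool.Agent.W117.GH.Stm

/-!
Project GH (helper117): regularity of the profile at infinity.
-/

set_option autoImplicit false

namespace Pool.Agent.W753.GH.Q

open Pool.Agent.W117.GH
open Set Filter Topology MeasureTheory
open scoped ContDiff

/-- the right-hand side at infinity -/
noncomputable def F0 (a : ℝ) (k m : ℕ) (y u : ℝ) : ℝ :=
  -(1 / (4 * (k : ℝ) ^ 2)) * (Real.exp (a * (u - y ^ m * Real.exp u)) * (1 - y ^ m * Real.exp u))

/-- the function in the variable at infinity -/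
noncomputable def gg (k m : ℕ) (h : ℝ → ℝ) (l : ℝ) (y : ℝ) : ℝ :=
  if y ≤ 0 then l else h (y ^ (-(1 / (k : ℝ)))) - m * Real.log y

section

variable {a l : ℝ} {k m : ℕ} {h : ℝ → ℝ}

lemma gg_pos {y : ℝ} (hy : 0 < y) :
    gg k m h l y = h (y ^ (-(1 / (k : ℝ)))) - m * Real.log y := by
  unfold gg
  rw [if_neg (not_le.2 hy)]

lemma gg_ev {y : ℝ} (hy : 0 < y) :
    gg k m h l =ᶠ[𝓝 y] fun y => h (y ^ (-(1 / (k : ℝ)))) - m * Real.log y := by
  filter_upwards [lt_mem_nhds hy] with z hz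
  exact gg_pos hz

lemma gg_smooth (hh : ContDiff ℝ ∞ h) {y : ℝ} (hy : 0 < y) : ContDiffAt ℝ ∞ (gg k m h l) y := by
  refine ContDiffAt.congr_of_eventuallyEq ?_ (gg_ev hy)
  apply ContDiffAt.sub
  · exact hh.contDiffAt.comp y (Real.contDiffAt_rpow_const_of_ne hy.ne')
  · exact contDiffAt_const.mul (Real.contDiffAt_log.2 hy.ne')

lemma X_deriv {y : ℝ} (hy : 0 < y) : HasDerivAt (fun y : ℝ => y ^ (-(1 / (k : ℝ))))
    (-(1 / (k : ℝ)) * (y ^ (-(1 / (k : ℝ))) / y)) y := by
  have := Real.hasDerivAt_rpow_const (x := y) (p := -(1 / (k : ℝ))) (Or.inl hy.ne')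
  refine this.congr_deriv ?_
  rw [Real.rpow_sub_one hy.ne']

lemma gg_deriv (hh : ContDiff ℝ ∞ h) {y : ℝ} (hy : 0 < y) : HasDerivAt (gg k m h l)
    (deriv h (y ^ (-(1 / (k : ℝ)))) * (-(1 / (k : ℝ)) * (y ^ (-(1 / (k : ℝ))) / y)) -
      m * y⁻¹) y := by
  have h1 : HasDerivAt h (deriv h (y ^ (-(1 / (k : ℝ))))) (y ^ (-(1 / (k : ℝ)))) :=
    ((hh.differentiable (by simp)) _).hasDerivAt
  have h2 := h1.comp y (X_deriv (k := k) hy)
  have h3 := (Real.hasDerivAt_log hy.ne').const_mul (m : ℝ)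
  exact (h2.sub h3).congr_of_eventuallyEq (gg_ev hy)

/-- `y g'` in terms of the flux -/
lemma y_deriv (hk : 1 ≤ k) (hh : ContDiff ℝ ∞ h) {y : ℝ} (hy : 0 < y) :
    y * deriv (gg k m h l) y = -(1 / (k : ℝ)) * (y ^ (-(1 / (k : ℝ))) *
      deriv h (y ^ (-(1 / (k : ℝ))))) - m := by
  rw [(gg_deriv hh hy).deriv]
  field_simp

lemma ode_inf (hk : 1 ≤ k) (hkm : a * (k * m) = k + 1) (hn : Neg a h) {y : ℝ} (hy : 0 < y) :
    HasDerivAt (fun y => y * deriv (gg k m h l) y) (F0 a k m y (gg k m h l y)) y := by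
  have hk0 : (k : ℝ) ≠ 0 := by positivity
  have e : (fun y => y * deriv (gg k m h l) y) =ᶠ[𝓝 y] fun y =>
      -(1 / (k : ℝ)) * (y ^ (-(1 / (k : ℝ))) * deriv h (y ^ (-(1 / (k : ℝ))))) - m := by
    filter_upwards [lt_mem_nhds hy] with z hz
    exact y_deriv hk hn.smooth hz
  set X := y ^ (-(1 / (k : ℝ))) with hX
  have h1 : HasDerivAt (fun x => x * deriv h x) (-(1 / 4) * fa a (h X)) X := hn.ode X
  have h2 := h1.comp y (X_deriv (k := k) hy)
  have h3 := ((h2.const_mul (-(1 / (k : ℝ)))).sub_const (m : ℝ))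
  refine (h3.congr_of_eventuallyEq e).congr_deriv ?_
  have hXpos : 0 < X := Real.rpow_pos_of_pos hy _
  -- exponentials
  have hg : h X = gg k m h l y + m * Real.log y := by rw [gg_pos hy]; ring
  set u := gg k m h l y with hu
  have e1 : Real.exp (h X) = y ^ m * Real.exp u := by
    rw [hg, Real.exp_add, mul_comm (Real.exp u), mul_comm (m : ℝ), Real.exp_mul, Real.exp_log hy,
      Real.rpow_natCast]
  have e2 : X / y * Real.exp (a * h X) = Real.exp (a * u) := by
    have h4 : a * h X = a * u + (1 + 1 / k) * Real.log y := by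
      rw [hg]
      have : a * m = 1 + 1 / (k : ℝ) := by
        field_simp
        linarith
      linear_combination Real.log y * this
    have h5 : X / y = Real.exp (-((1 + 1 / k) * Real.log y)) := by
      rw [hX, Real.rpow_def_of_pos hy]
      nth_rewrite 2 [← Real.exp_log hy]
      rw [← Real.exp_sub]
      congr 1
      ring
    rw [h4, h5, ← Real.exp_add]
    congr 1
    ring
  unfold F0 fa
  rw [← e1]
  have e3 : Real.exp (a * (h X - Real.exp (h X))) = Real.exp (a * h X) *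
      Real.exp (-(a * Real.exp (h X))) := by
    rw [← Real.exp_add]; congr 1; ring
  have e4 : Real.exp (a * (u - Real.exp (h X))) = Real.exp (a * u) *
      Real.exp (-(a * Real.exp (h X))) := by
    rw [← Real.exp_add]; congr 1; ring
  rw [e3, e4, ← e2]
  rw [← hX]
  field_simp

lemma X_tendsto (hk : 1 ≤ k) : Tendsto (fun y : ℝ => y ^ (-(1 / (k : ℝ)))) (𝓝[>] 0) atTop := by
  have hk0 : (0 : ℝ) < 1 / k := by positivity
  exact tendsto_rpow_neg_nhdsGT_zero (neg_neg_of_pos hk0)

lemma gg_tendsto (hk : 1 ≤ k)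
    (hl : Tendsto (fun x => h x + k * m * Real.log x) atTop (𝓝 l)) :
    Tendsto (gg k m h l) (𝓝[>] 0) (𝓝 l) := by
  have hk0 : (k : ℝ) ≠ 0 := by positivity
  have h1 := hl.comp (X_tendsto hk)
  refine h1.congr' ?_
  filter_upwards [self_mem_nhdsWithin] with y hy
  have hy' : 0 < y := hy
  rw [gg_pos hy']
  simp only [Function.comp]
  rw [Real.log_rpow hy']
  field_simp
  ring

lemma yg_tendsto (hk : 1 ≤ k) (hh : ContDiff ℝ ∞ h)
    (hP : Tendsto (PP h) atTop (𝓝 (2 * (k * m)))) :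
    Tendsto (fun y => y * deriv (gg k m h l) y) (𝓝[>] 0) (𝓝 0) := by
  have hk0 : (k : ℝ) ≠ 0 := by positivity
  have h1 := ((hP.comp (X_tendsto hk)).const_mul (1 / (2 * (k : ℝ)))).sub_const (m : ℝ)
  have e : 1 / (2 * (k : ℝ)) * (2 * (k * m)) - m = 0 := by field_simp; ring
  rw [e] at h1
  refine h1.congr' ?_
  filter_upwards [self_mem_nhdsWithin] with y hy
  rw [y_deriv hk hh hy]
  simp only [Function.comp, PP]
  field_simp

end

theorem main (h1 : PropEX) (h2 : PropSM) (h3 : PropUN) (h4 : PropIE) : PropQ := by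
  intro a k m h l hk hm ha hkm hn hP hl
  have hk0 : (k : ℝ) ≠ 0 := by positivity
  set g := gg k m h l with hg
  have hg0 : g 0 = l := by rw [hg]; unfold gg; simp
  have hgt : Tendsto g (𝓝[>] 0) (𝓝 l) := gg_tendsto hk hl
  -- cut-offs
  let χ : ContDiffBump (0 : ℝ) := ⟨1, 2, one_pos, one_lt_two⟩
  let ψ : ContDiffBump (l : ℝ) := ⟨1, 2, one_pos, one_lt_two⟩
  set F : ℝ → ℝ → ℝ := fun y u => χ y * ψ u * F0 a k m y u with hF
  have hFs : ContDiff ℝ ∞ (Function.uncurry F) := by
    have e : Function.uncurry F = fun p : ℝ × ℝ => χ p.1 * ψ p.2 * F0 a k m p.1 p.2 := by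
      funext p; rfl
    rw [e]
    apply ContDiff.mul
    · exact (χ.contDiff.comp contDiff_fst).mul (ψ.contDiff.comp contDiff_snd)
    · unfold F0
      fun_prop
  have hFc : HasCompactSupport (Function.uncurry F) := by
    apply HasCompactSupport.of_support_subset_isCompact
      (K := Metric.closedBall (0 : ℝ) 2 ×ˢ Metric.closedBall l 2)
    · exact (isCompact_closedBall _ _).prod (isCompact_closedBall _ _)
    · rintro ⟨y, u⟩ hyu
      rw [Function.mem_support] at hyu
      have hne : χ y * ψ u * F0 a k m y u ≠ 0 := hyu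
      have h1' : χ y ≠ 0 := fun h0 => hne (by rw [h0]; ring)
      have h2' : ψ u ≠ 0 := fun h0 => hne (by rw [h0]; ring)
      have s1 : y ∈ Function.support χ := h1'
      have s2 : u ∈ Function.support ψ := h2'
      rw [χ.support_eq] at s1
      rw [ψ.support_eq] at s2
      exact ⟨Metric.ball_subset_closedBall s1, Metric.ball_subset_closedBall s2⟩
  obtain ⟨L, hL⟩ := ContDiff.lipschitzWith_of_hasCompactSupport hFc hFs (by simp)
  have hLF : ∀ x y y', |F x y - F x y'| ≤ L * |y - y'| := by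
    intro x y y'
    have := hL.dist_le_mul (x, y) (x, y')
    rw [Real.dist_eq, Prod.dist_eq, dist_self, Real.dist_eq, max_eq_right (abs_nonneg _)] at this
    exact this
  have hFcont : Continuous (Function.uncurry F) := hFs.continuous
  obtain ⟨C, hC⟩ := hFc.exists_bound_of_continuous hFcont
  obtain ⟨Φ, hSol, _⟩ := h1 F hFcont ⟨C, fun x y => hC (x, y)⟩ ⟨L, hLF⟩
  set G := Φ l with hG
  have hGs : ContDiff ℝ ∞ G := h2 F hFs l G (hSol l)
  -- the interval
  obtain ⟨δ, hδ0, hδ1, hδ⟩ : ∃ δ : ℝ, 0 < δ ∧ δ ≤ 1 ∧ ∀ y ∈ Ioo 0 δ, |g y - l| < 1 := by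
    have hev : ∀ᶠ y in 𝓝[>] (0 : ℝ), |g y - l| < 1 := by
      have := hgt.eventually (Metric.ball_mem_nhds l one_pos)
      filter_upwards [this] with y hy
      rw [← Real.dist_eq]; exact hy
    rw [eventually_nhdsWithin_iff, Metric.eventually_nhds_iff] at hev
    obtain ⟨ε, hε, hev⟩ := hev
    refine ⟨min ε 1, lt_min hε one_pos, min_le_right _ _, ?_⟩
    rintro y ⟨hy1, hy2⟩
    apply hev _ hy1
    rw [Real.dist_eq, sub_zero, abs_of_pos hy1]
    exact lt_of_lt_of_le hy2 (min_le_left _ _)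
  have hFF : ∀ y ∈ Ioo 0 δ, F y (g y) = F0 a k m y (g y) := by
    intro y hy
    have c1 : χ y = 1 := by
      apply χ.one_of_mem_closedBall
      rw [Metric.mem_closedBall, Real.dist_eq, sub_zero, abs_of_pos hy.1]
      exact hy.2.le.trans hδ1
    have c2 : ψ (g y) = 1 := by
      apply ψ.one_of_mem_closedBall
      rw [Metric.mem_closedBall, Real.dist_eq]
      exact (hδ y hy).le
    simp only [hF]
    rw [c1, c2]; ring
  have hint := h4 F δ l g hFcont hδ0
    (fun y hy => (gg_deriv hn.smooth hy.1).differentiableAt)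
    (fun y hy => by rw [hFF y hy]; exact ode_inf hk hkm hn hy.1)
    hgt (yg_tendsto hk hn.smooth hP) hg0
  have hδ2 : 0 < δ / 2 := by linarith
  have hgc : ContinuousOn g (Icc 0 (δ / 2)) := by
    intro y hy
    rcases eq_or_lt_of_le hy.1 with h0 | h0
    · rw [← h0]
      have k1 : ContinuousWithinAt g (Ioi 0) 0 := by
        unfold ContinuousWithinAt
        rw [hg0]; exact hgt
      have k2 : ContinuousWithinAt g (Ici 0) 0 := by
        rw [← Ioi_insert]
        exact continuousWithinAt_insert_self.2 k1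
      exact k2.mono Icc_subset_Ici_self
    · exact (gg_smooth (k := k) (m := m) (l := l) hn.smooth h0).continuousAt.continuousWithinAt
  have hGg := h3 F L (δ / 2) l hFcont hδ2 hLF g G hgc hGs.continuous.continuousOn
    (fun x hx => hint x ⟨hx.1, by linarith [hx.2]⟩) (fun x _ => (hSol l).2 x)
  -- the glued function
  set q : ℝ → ℝ := fun y => if y < δ / 2 then G y else g y with hq
  have hqg : ∀ y, 0 < y → q y = g y := by
    intro y hy
    simp only [hq]
    split_ifs with h5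
    · exact (hGg y ⟨hy.le, h5.le⟩).symm
    · rfl
  have hqs : ContDiff ℝ ∞ q := by
    rw [contDiff_iff_contDiffAt]
    intro y
    rcases lt_or_ge y (δ / 2) with h5 | h5
    · refine hGs.contDiffAt.congr_of_eventuallyEq ?_
      filter_upwards [gt_mem_nhds h5] with z hz
      simp only [hq]
      rw [if_pos hz]
    · have hy : 0 < y := by linarith
      refine (gg_smooth (k := k) (m := m) (l := l) hn.smooth hy).congr_of_eventuallyEq ?_
      filter_upwards [lt_mem_nhds hy] with z hz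
      exact hqg z hz
  refine ⟨q, ⟨hn.smooth, hn.ode, hn.neg, ⟨1, one_pos, hqs.contDiffOn⟩, ?_⟩⟩
  intro x hx
  have hxk : 0 < (x ^ k)⁻¹ := by positivity
  rw [hqg _ hxk, hg, gg_pos hxk]
  have e1 : ((x ^ k)⁻¹) ^ (-(1 / (k : ℝ))) = x := by
    rw [Real.rpow_neg hxk.le, Real.inv_rpow (by positivity), inv_inv, ← Real.rpow_natCast,
      ← Real.rpow_mul hx.le]
    rw [show (k : ℝ) * (1 / k) = 1 by field_simp, Real.rpow_one]
  rw [e1, Real.log_inv, Real.log_pow]
  ring

end Pool.Agent.W753.GH.Q
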