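import Mathlib
import Pool.Agent.W117.GH.Stm

/-!
Project GH (helper117): the shooting argument.
-/

set_option autoImplicit false

namespace Pool.Agent.W753.GH.SH

open Pool.Agent.W117.GH
open Set Filter Topology MeasureTheory
open scoped ContDiff

lemma fa_smooth (a : ℝ) : ContDiff ℝ ∞ (fa a) := by
  unfold fa
  fun_prop

lemma FP_smooth (a : ℝ) : ContDiff ℝ ∞ (Function.uncurry (FP a)) := by
  have h : Function.uncurry (FP a) = fun p : ℝ × ℝ => -(1 / 4) * fa a p.2 := by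
    funext p; rfl
  rw [h]
  exact contDiff_const.mul ((fa_smooth a).comp contDiff_snd)

lemma cont_of_lip {g : ℝ → ℝ} {M : ℝ} (h : ∀ b b', |g b - g b'| ≤ M * |b - b'|) :
    Continuous g := by
  have : LipschitzWith (Real.toNNReal M) g := by
    apply LipschitzWith.of_dist_le_mul
    intro b b'
    rw [Real.dist_eq, Real.dist_eq]
    refine (h b b').trans ?_
    exact mul_le_mul_of_nonneg_right (Real.le_coe_toNNReal M) (abs_nonneg _)
  exact this.continuous

theorem main (h1 : PropEX) (h2 : PropSM) (h3 : PropFA) (h4 : PropEL) (h5 : PropLIM)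
    (h6 : PropTR) (h7 : PropUN) : PropSH := by
  intro a c0 ha hc0
  obtain ⟨⟨C, hC⟩, ⟨L, hL⟩⟩ := h3 a ha
  have hsm := FP_smooth a
  have hcont : Continuous (Function.uncurry (FP a)) := hsm.continuous
  have hbd : ∃ C, ∀ x y, |FP a x y| ≤ C := by
    refine ⟨1 / 4 * C, fun x y => ?_⟩
    unfold FP
    rw [abs_mul]
    have : |(-(1 / 4) : ℝ)| = 1 / 4 := by norm_num
    rw [this]
    linarith [hC y]
  have hlipF : ∀ x y y', |FP a x y - FP a x y'| ≤ L / 4 * |y - y'| := by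
    intro x y y'
    unfold FP
    rw [← mul_sub, abs_mul]
    have : |(-(1 / 4) : ℝ)| = 1 / 4 := by norm_num
    rw [this]
    linarith [hL y y']
  obtain ⟨Φ, hSol, hLip⟩ := h1 (FP a) hcont hbd ⟨L / 4, hlipF⟩
  have hΦs : ∀ b, ContDiff ℝ ∞ (Φ b) := fun b => h2 (FP a) hsm b (Φ b) (hSol b)
  have hEL := fun b => h4 a b (Φ b) ha (hSol b) (hΦs b)
  have hneg : ∀ b, b < 0 → Neg a (Φ b) := fun b hb =>
    { smooth := hΦs b
      ode := (hEL b).2.1
      neg := fun x hx => ((hEL b).2.2 hb x hx).1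
      decr := fun x hx => ((hEL b).2.2 hb x hx).2.2 }
  have hex : ∀ b, ∃ c, b < 0 → 4 / a < c ∧ Tendsto (PP (Φ b)) atTop (𝓝 c) ∧
      (∀ x, 0 ≤ x → PP (Φ b) x ≤ c) ∧ c ≤ 4 / a / (1 - Real.exp (Φ b 0)) ∧
      (∀ x, 0 ≤ x → EE a (Φ b) x ≤ a / 2 * c ^ 2) ∧
      Tendsto (EE a (Φ b)) atTop (𝓝 0) ∧ Tendsto (Φ b) atTop atBot := by
    intro b
    by_cases hb : b < 0
    · obtain ⟨c, hc⟩ := h5 a (Φ b) ha (hneg b hb)
      exact ⟨c, fun _ => hc⟩
    · exact ⟨0, fun h => absurd h hb⟩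
  choose c hc using hex
  have ha4 : 0 < 4 / a := by positivity
  have hc0pos : 0 < c0 := ha4.trans hc0
  -- continuity in `b`
  have cΦ : ∀ x, Continuous (fun b => Φ b x) := by
    intro x
    obtain ⟨K, hK⟩ := hLip |x|
    exact cont_of_lip (fun b b' => hK b b' x le_rfl)
  have hPform : ∀ b x, PP (Φ b) x = 1 / 2 * ∫ s in (0 : ℝ)..x, fa a (Φ b s) := by
    intro b x
    have hci : Continuous (fun s => -(1 / 4) * fa a (Φ b s)) :=
      continuous_const.mul ((fa_smooth a).continuous.comp (hΦs b).continuous)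
    have := intervalIntegral.integral_eq_sub_of_hasDerivAt
      (fun s _ => (hEL b).2.1 s) (hci.intervalIntegrable 0 x)
    rw [intervalIntegral.integral_const_mul] at this
    unfold PP
    linarith
  have cP : ∀ x, Continuous (fun b => PP (Φ b) x) := by
    intro x
    obtain ⟨K, hK⟩ := hLip |x|
    apply cont_of_lip (M := 1 / 2 * (|L| * |K| * |x|))
    intro b b'
    have hcb : ∀ b, Continuous (fun s => fa a (Φ b s)) := fun b =>
      (fa_smooth a).continuous.comp (hΦs b).continuous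
    rw [hPform, hPform, ← mul_sub, ← intervalIntegral.integral_sub
      ((hcb b).intervalIntegrable _ _) ((hcb b').intervalIntegrable _ _), abs_mul]
    have e : |(1 / 2 : ℝ)| = 1 / 2 := by norm_num
    rw [e]
    have hb : ∀ s ∈ Set.uIoc (0 : ℝ) x, ‖fa a (Φ b s) - fa a (Φ b' s)‖ ≤ |L| * |K| * |b - b'| := by
      intro s hs
      have hs' : |s| ≤ |x| := by
        rcases le_total 0 x with h | h
        · rw [uIoc_of_le h] at hs
          rw [abs_of_pos hs.1, abs_of_nonneg h]; exact hs.2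
        · rw [uIoc_of_ge h] at hs
          rw [abs_of_nonpos hs.2, abs_of_nonpos h]; linarith [hs.1]
      rw [Real.norm_eq_abs]
      have k1 := hL (Φ b s) (Φ b' s)
      have k2 := hK b b' s hs'
      calc |fa a (Φ b s) - fa a (Φ b' s)| ≤ L * |Φ b s - Φ b' s| := k1
        _ ≤ |L| * |Φ b s - Φ b' s| := mul_le_mul_of_nonneg_right (le_abs_self _) (abs_nonneg _)
        _ ≤ |L| * (K * |b - b'|) := mul_le_mul_of_nonneg_left k2 (abs_nonneg _)
        _ ≤ |L| * (|K| * |b - b'|) := mul_le_mul_of_nonneg_left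
            (mul_le_mul_of_nonneg_right (le_abs_self _) (abs_nonneg _)) (abs_nonneg _)
        _ = _ := by ring
    have := intervalIntegral.norm_integral_le_of_norm_le_const hb
    rw [Real.norm_eq_abs, sub_zero] at this
    linarith
  have cE : ∀ x, Continuous (fun b => EE a (Φ b) x) := by
    intro x
    unfold EE
    have := cΦ x
    fun_prop
  -- the two open sets
  by_contra hcon
  push Not at hcon
  have hno : ∀ b, b < 0 → c b ≠ c0 := by
    intro b hb h
    apply hcon (Φ b) (hneg b hb)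
    rw [← h]
    exact (hc b hb).2.1
  have ho2 : IsOpen {b | b < 0 ∧ c0 < c b} := by
    rw [isOpen_iff_mem_nhds]
    rintro b ⟨hb, hcb⟩
    have hev := ((hc b hb).2.1.eventually (lt_mem_nhds hcb)).and (eventually_ge_atTop (0 : ℝ))
    obtain ⟨x, hx1, hx2⟩ := hev.exists
    have k1 : ∀ᶠ b' in 𝓝 b, c0 < PP (Φ b') x := (cP x).continuousAt.eventually (lt_mem_nhds hx1)
    have k2 : ∀ᶠ b' in 𝓝 b, b' < 0 := gt_mem_nhds hb
    filter_upwards [k1, k2] with b' h1' h2'
    exact ⟨h2', lt_of_lt_of_le h1' ((hc b' h2').2.2.1 x hx2)⟩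
  have ho1 : IsOpen {b | b < 0 ∧ c b < c0} := by
    rw [isOpen_iff_mem_nhds]
    rintro b ⟨hb, hcb⟩
    obtain ⟨q1, q2, q3, q4, q5, q6, q7⟩ := hc b hb
    have e1 : ∀ᶠ x in atTop, 3 / a < PP (Φ b) x := by
      apply q2.eventually
      apply lt_mem_nhds
      refine lt_trans ?_ q1
      rw [div_lt_div_iff_of_pos_right ha]; norm_num
    have e2 : ∀ᶠ x in atTop, Real.exp (Φ b x) < 1 / 6 :=
      (Real.tendsto_exp_atBot.comp q7).eventually (gt_mem_nhds (by norm_num))
    have e3 : ∀ᶠ x in atTop, PP (Φ b) x + 2 * EE a (Φ b) x < c0 := by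
      have := q2.add (q6.const_mul 2)
      rw [mul_zero, add_zero] at this
      exact this.eventually (gt_mem_nhds hcb)
    obtain ⟨x, ⟨⟨⟨x1, x2⟩, x3⟩, x4⟩⟩ := (((e1.and e2).and e3).and
      (eventually_gt_atTop (0 : ℝ))).exists
    have k1 : ∀ᶠ b' in 𝓝 b, 3 / a < PP (Φ b') x := (cP x).continuousAt.eventually (lt_mem_nhds x1)
    have k2 : ∀ᶠ b' in 𝓝 b, Real.exp (Φ b' x) < 1 / 6 :=
      (Real.continuous_exp.comp (cΦ x)).continuousAt.eventually (gt_mem_nhds x2)
    have k3 : ∀ᶠ b' in 𝓝 b, PP (Φ b') x + 2 * EE a (Φ b') x < c0 :=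
      ((cP x).add (continuous_const.mul (cE x))).continuousAt.eventually (gt_mem_nhds x3)
    have k4 : ∀ᶠ b' in 𝓝 b, b' < 0 := gt_mem_nhds hb
    filter_upwards [k1, k2, k3, k4] with b' h1' h2' h3' h4'
    exact ⟨h4', lt_of_le_of_lt (h6 a (c b') (Φ b') x ha (hneg b' h4') (hc b' h4').2.1 x4 h1' h2')
      h3'⟩
  have hne1 : (Iio (0 : ℝ) ∩ {b | b < 0 ∧ c b < c0}).Nonempty := by
    set δ := 1 - (4 / a) / c0 with hδ
    have hδ1 : 0 < δ := by
      rw [hδ, sub_pos, div_lt_one hc0pos]; exact hc0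
    have hδ2 : δ < 1 := by
      rw [hδ]
      have : 0 < (4 / a) / c0 := by positivity
      linarith
    have hb : Real.log (δ / 2) < 0 := Real.log_neg (by linarith) (by linarith)
    refine ⟨Real.log (δ / 2), hb, hb, ?_⟩
    have q := (hc _ hb).2.2.2.1
    rw [(hEL _).1, Real.exp_log (by linarith)] at q
    refine lt_of_le_of_lt q ?_
    rw [div_lt_iff₀ (by linarith)]
    have e : c0 * δ = c0 - 4 / a := by
      rw [hδ]; field_simp
    nlinarith
  have hne2 : (Iio (0 : ℝ) ∩ {b | b < 0 ∧ c0 < c b}).Nonempty := by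
    -- the zero solution
    have hzero : ∀ x, 0 < x → Φ 0 x = 0 := by
      intro x hx
      have hF0 : ∀ t, FP a t 0 = 0 := by
        intro t
        unfold FP fa
        rw [Real.exp_zero]; ring
      have := h7 (FP a) (L / 4) x 0 hcont hx hlipF (Φ 0) (fun _ => 0)
        (hSol 0).1.continuousOn continuousOn_const
        (fun y _ => (hSol 0).2 y)
        (fun y _ => by simp [hF0])
      exact this x ⟨hx.le, le_rfl⟩
    obtain ⟨x, hx⟩ := exists_gt (max 1 (a / 2 * c0 ^ 2 * Real.exp a))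
    have hx1 : 1 < x := lt_of_le_of_lt (le_max_left _ _) hx
    have hx2 : a / 2 * c0 ^ 2 * Real.exp a < x := lt_of_le_of_lt (le_max_right _ _) hx
    have hE0 : a / 2 * c0 ^ 2 < EE a (Φ 0) x := by
      unfold EE
      rw [hzero x (by linarith), Real.exp_zero]
      have e : Real.exp (a * (0 - 1)) = (Real.exp a)⁻¹ := by
        rw [← Real.exp_neg]; congr 1; ring
      rw [e, ← div_eq_mul_inv, lt_div_iff₀ (Real.exp_pos a)]
      exact hx2
    have k1 : ∀ᶠ b in 𝓝 (0 : ℝ), a / 2 * c0 ^ 2 < EE a (Φ b) x :=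
      (cE x).continuousAt.eventually (lt_mem_nhds hE0)
    have k2 : ∀ᶠ b in 𝓝[<] (0 : ℝ), b < 0 := self_mem_nhdsWithin
    obtain ⟨b, hb1, hb2⟩ := ((k1.filter_mono nhdsWithin_le_nhds).and k2).exists
    refine ⟨b, hb2, hb2, ?_⟩
    obtain ⟨q1, q2, q3, q4, q5, q6, q7⟩ := hc b hb2
    have q8 := q5 x (by linarith)
    have q9 : c0 ^ 2 < (c b) ^ 2 := by
      have : a / 2 * c0 ^ 2 < a / 2 * (c b) ^ 2 := lt_of_lt_of_le hb1 q8
      exact lt_of_mul_lt_mul_left this (by positivity)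
    exact lt_of_pow_lt_pow_left₀ 2 (by linarith) q9
  have hcov : Iio (0 : ℝ) ⊆ {b | b < 0 ∧ c b < c0} ∪ {b | b < 0 ∧ c0 < c b} := by
    intro b hb
    rcases lt_or_gt_of_ne (hno b hb) with h | h
    · exact Or.inl ⟨hb, h⟩
    · exact Or.inr ⟨hb, h⟩
  obtain ⟨b, _, hb1, hb2⟩ := isPreconnected_Iio _ _ ho1 ho2 hcov hne1 hne2
  exact lt_asymm hb1.2 hb2.2

end Pool.Agent.W753.GH.SH
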